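import Pool.Agent.Run7.h114.CA.DelT
import Pool.Agent.Run7.h114.CA.HkG
import Pool.Agent.Run7.h114.CA.WS
import Pool.Agent.Run7.h336.CB.B22

set_option autoImplicit false
set_option maxHeartbeats 2000000

/-!
# MP_cd509c_nt: entire functions with only real and simple zeros, built from finitely many values of `τ`, which
# converge to the Ramanujan Xi function if and only if all its zeros are real and simple

`Ξ(z) = Λ(6 + i z)`, `Λ(s) = (2π)^(-s) Γ(s) L(s, Δ)`.  For `a > 0` let `W a` be Weil's quadratic form of `L(s, Δ)` on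
the functions supported in `[-a, a]`:

`W a f = (1/π) ∫ (Re ψ(6 + i x) - log 2π) |f^(x)|² dx - 2 Re ∑_{n ≤ e^(2 a)} t(n) n^(-6) ∫ f(x + log n) conj f(x) dx`,

`ψ` the digamma function, `-L'/L(s) = ∑ t(n) n^(-s)` (so `t(n)` is a polynomial in `τ(d)`, `d | n`, times `log p`,
for a power `n` of `p`, and zero for the other `n`).  No zero of `Ξ` enters.  Let `S` be any window (a compact set of
real numbers with `-S = S` and with an interior point) without zeros of `Ξ`; such windows exist.  We minimise `W a`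
relative to the mass `∫_S |f^(t)|² dt`.

RESULT: for every `a > 0` the Fourier transforms of the minimisers are the multiples `p E_a` of one entire function
`E_a` by the polynomials `p` of degree less than `d_a`.  `E_a` is real on the real line, even or odd, and ALL ITS ZEROS ARE
REAL AND SIMPLE.  The lowest quotient `low a` is at most `exp (-c e^a)`, `c < 4 π`, for large `a`; and
* all zeros of `Ξ` are real if and only if `low a ≥ 0` for all `a`, if and only if `low a → 0`, if and only if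
  `E_a(z) / E_a(i)` converges locally uniformly to a function that vanishes at the zeros of `Ξ`; if `Ξ` has a
  non-real zero then `low a ≤ -exp (c e^a / a)` for some `c > 0` and all large `a`;
* all zeros of `Ξ` are real and simple if and only if `E_a(z) / E_a(i) → Ξ(z) / Ξ(i)` locally uniformly;
* if all zeros of `Ξ` are real, then the limit exists, it has simple zeros exactly at the zeros of `Ξ`, and in every
  disc the zeros of `E_a` correspond one to one to the distinct zeros of `Ξ`, up to `exp (-c e^a)`, `c < 2 π`; if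
  moreover they are simple then `low a > 0` and the minimiser is unique up to a factor for large `a`.
-/

namespace Pool.Agent.Results.MP_cd509c_nt.GroundStatesConverge

open scoped ComplexConjugate
open Pool.Agent.Run7.h336.CB.S (Full Window F)
open Pool.Agent.Run7.h114.CA.HkT (lder)

/-- `Δ(i y) = e^(-2πy) ∏_{n ≥ 1} (1 - e^(-2πny))^24`, the modular discriminant on the imaginary axis
(the function of the frozen statement S18517). -/
noncomputable def delta (y : ℝ) : ℝ :=
  Real.exp (-2 * Real.pi * y) * ∏' n : ℕ, (1 - Real.exp (-2 * Real.pi * ((n : ℝ) + 1) * y)) ^ 24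

/-- The completed L-function `Λ(s) = ∫_0^∞ Δ(i y) y^(s-1) dy = (2π)^(-s) Γ(s) L(s, Δ)`, an entire
function with `Λ(12 - s) = Λ(s)`. -/
noncomputable def Lam (s : ℂ) : ℂ := mellin (fun y : ℝ => ((delta y : ℝ) : ℂ)) s

/-- The Ramanujan Xi function `Ξ_Δ(z) = Λ(6 + i z)`. -/
noncomputable def Xi (z : ℂ) : ℂ := Lam (6 + Complex.I * z)

/-- `τ` is Ramanujan's function: `Δ(i y) = ∑ τ(n) e^(-2πny)` for all `y > 0`. -/
def IsTau (τ : ℕ → ℝ) : Prop :=
  ∀ y : ℝ, 0 < y → HasSum (fun n : ℕ => τ n * Real.exp (-2 * Real.pi * n * y)) (delta y)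

/-- Weil's quadratic form of `L(s, Δ)` on the functions supported in `[-a, a]`:
`(1/π) ∫ (Re ψ(6 + i x) - log 2π) |f^(x)|² dx`, minus twice the real part of the sum over `n ≤ e^(2 a)` of
`t(n) n^(-6) ∫ f(x + log n) conj f(x) dx`, where `-L'/L(s) = ∑ t(n) n^(-s)` (`t = lder τ`). -/
noncomputable def W (τ : ℕ → ℝ) (a : ℝ) (f : ℝ → ℂ) : ℝ :=
  1 / Real.pi * (∫ x : ℝ, ((Complex.digamma (6 + x * Complex.I)).re - Real.log (2 * Real.pi)) * ‖F f x‖ ^ 2) -
    2 * (∑ n ∈ Finset.Icc 1 ⌊Real.exp (2 * a)⌋₊, ((lder τ n / (n : ℝ) ^ 6 : ℝ) : ℂ) *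
      ∫ x : ℝ, f (x + Real.log n) * conj (f x)).re

lemma W_eq (τ : ℕ → ℝ) (a : ℝ) (f : ℝ → ℂ) : W τ a f = Pool.Agent.Run7.h114.CA.HkT.W 12 1 τ a f := by
  unfold W Pool.Agent.Run7.h114.CA.HkT.W
  have h1 : (((12 : ℝ) : ℂ) / 2) = 6 := by norm_num
  have h2 : ((12 : ℝ) / 2) = ((6 : ℕ) : ℝ) := by norm_num
  have h3 : Real.log (Real.sqrt 1 / (2 * Real.pi)) = -Real.log (2 * Real.pi) := by
    rw [Real.sqrt_one, one_div, Real.log_inv]
  rw [h1, h2, h3]
  simp only [Real.rpow_natCast]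
  have h4 : ∀ x : ℝ, (Complex.digamma (6 + x * Complex.I)).re - Real.log (2 * Real.pi) =
      -Real.log (2 * Real.pi) + (Complex.digamma (6 + x * Complex.I)).re := fun x => by ring
  simp only [h4]
  rfl

/-- **The theorem.** There is exactly one `τ` with `IsTau τ`; there are windows without zeros of `Ξ`; and for all of
them the statement holds for `Ξ`, with degree `2` and conductor `1`, and for Weil's forms `W τ`. -/
theorem result : ∃ τ : ℕ → ℝ, IsTau τ ∧ (∀ τ' : ℕ → ℝ, IsTau τ' → τ' = τ) ∧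
    (∃ S : Set ℝ, Window S ∧ ∀ t : ℝ, t ∈ S → Xi t ≠ 0) ∧
    ∀ S : Set ℝ, Window S → (∀ t : ℝ, t ∈ S → Xi t ≠ 0) → Full Xi 2 1 (W τ) S := by
  obtain ⟨B, hB⟩ := Pool.Agent.H128R3.JD.DelHk.isHk
  have hX : ∀ z, Xi z = mellin (fun y => (((Pool.Agent.H128R3.JD.DelHk.hk B).φ y : ℝ) : ℂ))
      ((((Pool.Agent.H128R3.JD.DelHk.hk B).k / 2 : ℝ) : ℂ) + Complex.I * z) := by
    intro z
    have h6 : ((((Pool.Agent.H128R3.JD.DelHk.hk B).k / 2 : ℝ)) : ℂ) = 6 := by
      show (((12 / 2 : ℝ)) : ℂ) = 6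
      norm_num
    rw [h6]
    rfl
  obtain ⟨L, h1, h2, C, h3, h4, h5, h6⟩ := Pool.Agent.Run7.h114.CA.HkT.lfun_of (Pool.Agent.H128R3.JD.DelHk.hk B) hB rfl
    (by show (6 : ℝ) = 12 / 2; norm_num) (by show (1 : ℝ) ≤ 12; norm_num) (le_refl 1)
    Pool.Agent.Run7.h114.CA.DelT.tb_mul Pool.Agent.Run7.h114.CA.DelT.tb_pow Xi hX
  have e1 : (Pool.Agent.H128R3.JD.DelHk.hk B).h ^ 2 = 1 := by
    show (1 : ℝ) ^ 2 = 1
    norm_num
  have hpar : (∀ z, Xi (-z) = Xi z) ∨ ∀ z, Xi (-z) = -Xi z := by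
    left
    intro z
    have h := h5 z
    have e2 : (Pool.Agent.H128R3.JD.DelHk.hk B).ε = 1 := rfl
    rw [e2, Complex.ofReal_one, one_mul] at h
    exact h
  rw [e1] at h2 h6
  refine ⟨Pool.Agent.Run7.h114.CA.DelT.tb, fun y hy => Pool.Agent.Run7.h114.CA.DelT.tb_sum hy,
    fun τ' h => Pool.Agent.Run7.h114.CA.DelT.tb_unique h,
    Pool.Agent.Run7.h114.CA.WS.exists_window L _ h3 h4 hpar, fun S hS hno => ?_⟩
  have h := Pool.Agent.Run7.h336.CB.S.full L _ h3 h4 hpar (W Pool.Agent.Run7.h114.CA.DelT.tb)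
    (fun r hr g hg => by
      rw [W_eq]
      exact h6 r hr g hg) hS hno
  rw [h1, h2] at h
  exact h

end Pool.Agent.Results.MP_cd509c_nt.GroundStatesConverge
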