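import Mathlib
import Pool.Agent.Run7.h422.PP.N5
import Pool.Agent.Y771.NF.FinH
import Pool.Agent.Y67.GL.TOTH

/-!
# All correlations of the zeros of the heat flow of the Ramanujan Xi function

Let `Λ(s) = (2π)^(-s) Γ(s) L(s, Δ)`, so that the Ramanujan Xi function is `Ξ_Δ(z) = Λ(6 + i z)`, and let
`Λ_t = exp (t D²) Λ`, `D = d/ds`, be the heat flow: all zeros of `Ξ_Δ` are real if and only if all zeros of `Λ_t` are on
the line `Re s = 6` for all `t > 0`. The mean distance of the zeros at height `y` is `π / log y`. We consider, for every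
`k`, the `(k+1)`-tuples of different zeros with ordinates `γ_0, ..., γ_k` in `(0, T]` and normalised differences
`(γ_i - γ_0) log T / π`, `1 ≤ i ≤ k`, in a box, at a time `t = t(T)`. Unconditionally:

(1) If `t(T) log² T → 0`, then every continuous law for the `(k+1)`-level correlations holds for the zeros of `Λ` if and
only if it holds for the zeros of `Λ_{t(T)}`; in particular this is true for the law of random matrix theory (the
determinant of the sine kernel, the conjecture of Rudnick and Sarnak for this L-function).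

Moreover, if such a law holds for `Λ`, it holds up to `ε` for `Λ_t` at all times `t ≤ δ / log² T`, with `δ > 0`
depending only on `ε` and the box.

(2) If `t log² T ≥ τ₀` (and `t log T ≤ A`), then the correlations of the zeros of `Λ_t`, of all levels, are close to
those of the integers, and this is true for the simple zeros on the line `Re s = 6` alone: for every box whose
corners have no integral coordinates the number of tuples of simple zeros on the line, divided by the number of all zeros,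
differs by at most `ε` from the number of the vectors of different nonzero integers in the box, if `τ₀` is large enough
(depending on the box, `ε` and `A`) and `T` is large.

(3) So no continuous law for the `(k+1)`-level correlations, `k ≥ 1`, in particular not the law of the sine kernel, holds
for `Λ_t` at the time `t = τ / log² T` with a large constant `τ` (or at later times).

Starting modules: the comparison theorem `Pool.Agent.R838.ST.full`, the theorem on regular zeros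
`Pool.Agent.R838.CR.fin_irr`, moments of the number of zeros in short windows `Pool.Agent.R838.ST.midw`, the hypotheses
for completed L-functions `Pool.Agent.R838.IS.Is9` (see the docstrings of the starting results `HeatFlowSpacing` and
`HeatFlowStability` of this problem for the authors).
-/

set_option autoImplicit false

open Filter Topology

namespace Pool.Agent.Results.MP_cd509c_nt.HeatFlowCorrelations

/-- `Δ(i y) = e^(-2πy) ∏_{n ≥ 1} (1 - e^(-2πny))^24`, the modular discriminant on the imaginary axis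
(the function of the frozen statement S18517). -/
noncomputable def delta (y : ℝ) : ℝ :=
  Real.exp (-2 * Real.pi * y) * ∏' n : ℕ, (1 - Real.exp (-2 * Real.pi * ((n : ℝ) + 1) * y)) ^ 24

/-- The completed L-function `Λ(s) = ∫_0^∞ Δ(i y) y^(s-1) dy = (2π)^(-s) Γ(s) L(s, Δ)`, an entire
function with `Λ(12 - s) = Λ(s)`; `Ξ_Δ(z) = Λ(6 + i z)`. -/
noncomputable def Lam (s : ℂ) : ℂ := mellin (fun y : ℝ => ((delta y : ℝ) : ℂ)) s

/-- The heat flow `Λ_t = e^{t D²} Λ` (`D = d/ds`) as a Gaussian average: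
`Λ_t(s) = π^(-1/2) ∫ exp (-v²) Λ(s + 2 √t v) dv`; in particular `Λ_0 = Λ`. -/
noncomputable def heat (t : ℝ) (Λ : ℂ → ℂ) (s : ℂ) : ℂ :=
  ((1 / Real.sqrt Real.pi : ℝ) : ℂ) *
    ∫ v : ℝ, ((Real.exp (-v ^ 2) : ℝ) : ℂ) * Λ (s + ((2 * Real.sqrt t * v : ℝ) : ℂ))

/-- The zeros of `Y` with multiplicity: `(s, i)`, `i` less than the order of the zero `s`. -/
def Zeros (Y : ℂ → ℂ) : Set (ℂ × ℕ) := {p | p.2 < analyticOrderNatAt Y p.1}

/-- The `(k+1)`-tuples of different zeros of `Y` with ordinates in `(0, T]`, such that the normalised differences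
`(Im x_i - Im x_0) log T / π`, `1 ≤ i ≤ k`, are in `[α_i, β_i]`. -/
def Tuples (Y : ℂ → ℂ) {k : ℕ} (T : ℝ) (α β : Fin k → ℝ) : Set (Fin (k + 1) → ℂ × ℕ) :=
  {x | (∀ i, x i ∈ Zeros Y) ∧ Function.Injective x ∧ (∀ i, 0 < (x i).1.im ∧ (x i).1.im ≤ T) ∧
    ∀ i : Fin k, α i ≤ ((x i.succ).1.im - (x 0).1.im) * (Real.log T / Real.pi) ∧
      ((x i.succ).1.im - (x 0).1.im) * (Real.log T / Real.pi) ≤ β i}

/-- The number of tuples. -/
noncomputable def num (Y : ℂ → ℂ) {k : ℕ} (T : ℝ) (α β : Fin k → ℝ) : ℝ := ((Tuples Y T α β).ncard : ℝ)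

/-- The number of tuples of simple zeros on the line `Re s = 6`. -/
noncomputable def numLine (Y : ℂ → ℂ) {k : ℕ} (T : ℝ) (α β : Fin k → ℝ) : ℝ :=
  (({x | x ∈ Tuples Y T α β ∧ ∀ i, (x i).1.re = 6 ∧ analyticOrderNatAt Y (x i).1 = 1} :
    Set (Fin (k + 1) → ℂ × ℕ)).ncard : ℝ)

/-- The number of zeros of `Y` with ordinates in `(0, T]`. -/
noncomputable def total (Y : ℂ → ℂ) (T : ℝ) : ℝ :=
  (({p | p ∈ Zeros Y ∧ 0 < p.1.im ∧ p.1.im ≤ T} : Set (ℂ × ℕ)).ncard : ℝ)

/-- The law `Ψ`: the number of tuples, divided by `T log T / π`, converges to `Ψ(α, β)`, for all `α_i < β_i`. -/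
def Law (k : ℕ) (N : ℝ → (Fin k → ℝ) → (Fin k → ℝ) → ℝ)
    (Ψ : (Fin k → ℝ) → (Fin k → ℝ) → ℝ) : Prop :=
  ∀ α β : Fin k → ℝ, (∀ i, α i < β i) →
    Tendsto (fun T : ℝ => N T α β / (T * Real.log T / Real.pi)) atTop (𝓝 (Ψ α β))

/-- `Ψ` is continuous on the set of all `(α, β)` with `α_i < β_i`. -/
def ContinuousLaw (k : ℕ) (Ψ : (Fin k → ℝ) → (Fin k → ℝ) → ℝ) : Prop :=
  ContinuousOn (fun x : (Fin k → ℝ) × (Fin k → ℝ) => Ψ x.1 x.2) {x | ∀ i, x.1 i < x.2 i}

/-- The determinant of the sine kernel `sin π(x - y) / (π(x - y))` (`1` if `x = y`) at the points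
`0, u_1, ..., u_k`. -/
noncomputable def sineDet {k : ℕ} (u : Fin k → ℝ) : ℝ :=
  Matrix.det (Matrix.of fun i j : Fin (k + 1) =>
    Real.sinc (Real.pi * ((Fin.cons 0 u : Fin (k + 1) → ℝ) i - (Fin.cons 0 u : Fin (k + 1) → ℝ) j)))

/-- The vectors of different nonzero integers in the box. -/
def IntegerVectors {k : ℕ} (α β : Fin k → ℝ) : Set (Fin k → ℤ) :=
  {a | Function.Injective a ∧ ∀ i, a i ≠ 0 ∧ α i ≤ a i ∧ (a i : ℝ) ≤ β i}

/-- **Main theorem.** (1) Let `t(T) ≥ 0` and `t(T) log² T → 0`. For every `k` a continuous law for the `(k+1)`-level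
correlations holds for the zeros of `Λ` if and only if it holds for the zeros of `Λ_{t(T)}`; in particular this is true
for the law of the sine kernel. If it holds for `Λ`, then for every box `[α, β]` and `ε > 0` there are `δ > 0`, `T₀` such
that it holds up to `ε` for this box and the zeros of `Λ_t` if `T ≥ T₀` and `0 ≤ t log² T ≤ δ`. (2) Let
`A > 0`. There is `c > 0` such that `Λ_t` has `N ≥ c T log T` zeros up to `T` for large `T` and `0 ≤ t ≤ A / log T`. For all
`k`, all boxes `[α, β]` such that no `α_i` and no `β_i` is an integer, and all `ε > 0` there are `τ₀`, `T₀` such that for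
`T ≥ T₀`, `τ₀ / log² T ≤ t ≤ A / log T` both the number of tuples of zeros and the number of tuples of simple zeros on
the line `Re s = 6` are the number of vectors of different nonzero integers in the box times `N`, up to an error at most
`ε N`. (3) For every `k ≥ 1` and every continuous law for the `(k+1)`-level correlations, in particular for the law of
the sine kernel, there is `τ₀` such that it is false for the zeros of `Λ_{t(T)}` for every function `t(T)` with
`τ₀ / log² T ≤ t(T) ≤ A / log T` for large `T`. -/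
theorem result :
    (∀ t : ℝ → ℝ, (∀ T, 0 ≤ t T) → Tendsto (fun T => t T * Real.log T ^ 2) atTop (𝓝 0) → ∀ k : ℕ,
      (∀ Ψ : (Fin k → ℝ) → (Fin k → ℝ) → ℝ, ContinuousLaw k Ψ →
        (Law k (num Lam) Ψ ↔ Law k (fun T => num (heat (t T) Lam) T) Ψ)) ∧
      (Law k (num Lam) (fun α β => ∫ u in Set.Icc α β, sineDet u) ↔
        Law k (fun T => num (heat (t T) Lam) T) fun α β => ∫ u in Set.Icc α β, sineDet u)) ∧
    (∀ (k : ℕ) (Ψ : (Fin k → ℝ) → (Fin k → ℝ) → ℝ), ContinuousLaw k Ψ → Law k (num Lam) Ψ →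
      ∀ (α β : Fin k → ℝ) (ε : ℝ), (∀ i, α i < β i) → 0 < ε →
      ∃ δ T₀ : ℝ, 0 < δ ∧ 2 ≤ T₀ ∧ ∀ T t : ℝ, T₀ ≤ T → 0 ≤ t → t * Real.log T ^ 2 ≤ δ →
        |num (heat t Lam) T α β / (T * Real.log T / Real.pi) - Ψ α β| ≤ ε) ∧
    (∀ A : ℝ, 0 < A →
      (∃ c T₀ : ℝ, 0 < c ∧ 2 ≤ T₀ ∧ ∀ T t : ℝ, T₀ ≤ T → 0 ≤ t → t * Real.log T ≤ A →
        c * (T * Real.log T) ≤ total (heat t Lam) T) ∧
      (∀ (k : ℕ) (α β : Fin k → ℝ) (ε : ℝ), (∀ i, ∀ a : ℤ, α i ≠ a) → (∀ i, ∀ a : ℤ, β i ≠ a) → 0 < ε →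
        ∃ τ₀ T₀ : ℝ, 0 < τ₀ ∧ 2 ≤ T₀ ∧ ∀ T t : ℝ, T₀ ≤ T → τ₀ ≤ t * Real.log T ^ 2 → t * Real.log T ≤ A →
          |num (heat t Lam) T α β - ((IntegerVectors α β).ncard : ℝ) * total (heat t Lam) T| ≤
            ε * total (heat t Lam) T ∧
          |numLine (heat t Lam) T α β - ((IntegerVectors α β).ncard : ℝ) * total (heat t Lam) T| ≤
            ε * total (heat t Lam) T) ∧
      (∀ k : ℕ, 1 ≤ k → ∀ Ψ : (Fin k → ℝ) → (Fin k → ℝ) → ℝ, ContinuousLaw k Ψ → ∃ τ₀ : ℝ, 0 < τ₀ ∧
        ∀ t : ℝ → ℝ, (∀ᶠ T in atTop, τ₀ ≤ t T * Real.log T ^ 2 ∧ t T * Real.log T ≤ A) →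
        ¬ Law k (fun T => num (heat (t T) Lam) T) Ψ) ∧
      (∀ k : ℕ, 1 ≤ k → ∃ τ₀ : ℝ, 0 < τ₀ ∧
        ∀ t : ℝ → ℝ, (∀ᶠ T in atTop, τ₀ ≤ t T * Real.log T ^ 2 ∧ t T * Real.log T ≤ A) →
        ¬ Law k (fun T => num (heat (t T) Lam) T) fun α β => ∫ u in Set.Icc α β, sineDet u)) := by
  obtain ⟨u, H, Z, hu, hGG, hst, -, -, hH⟩ := Pool.Agent.Y771.NF.all_of (N := 1) (k := 12) (by norm_num)
    Pool.Agent.Y771.NF.newf_delta
  have h1 : Pool.Agent.Y771.NF.Lam (N := 1) (k := 12) Pool.Agent.W97.TW.deltaForm = Lam :=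
    funext fun s => Pool.Agent.Y771.NF.Lam_delta s
  have e1 : Pool.Agent.Y771.NF.Xf (N := 1) (k := 12) Pool.Agent.W97.TW.deltaForm u =
      fun z => u * Lam (((6 : ℝ) : ℂ) + z) := by
    funext z
    have h : (((12 : ℕ) : ℂ)) / 2 = ((6 : ℝ) : ℂ) := by norm_num
    show u * Pool.Agent.Y771.NF.Lam (N := 1) (k := 12) Pool.Agent.W97.TW.deltaForm ((((12 : ℕ) : ℂ)) / 2 + z) = _
    rw [h1, h]
  have hG := Pool.Agent.Y693.GL.gy_one hGG
  rw [e1] at hG hst hH
  obtain ⟨F, FT, hx⟩ := Pool.Agent.R838.IS.hx_of (κ := 1) (by norm_num) hu hG hst hH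
  have htot : Run7.h422.PP.TOT FT := by
    refine Run7.h422.PP.tot_hx hx fun K hK => ?_
    obtain ⟨c, T0, hc, hT0, h⟩ := Pool.Agent.Y67.GL.toth 1 H _ Z (by norm_num) hG.cg hst K hK
    refine ⟨c, T0, hc, hT0, fun T τ k1 k2 k3 k4 => ?_⟩
    have h2 := h T τ k1 k2 k3 k4
    rw [Pool.Agent.Y671.GL.heat_shift'] at h2
    exact h2
  have hT : ∀ (Y : ℂ → ℂ) (k : ℕ) (T : ℝ) (α β : Fin k → ℝ),
      Run7.h422.PP.TuL 1 Y T α β = Tuples Y T α β := by
    intro Y k T α β
    unfold Run7.h422.PP.TuL Tuples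
    simp only [one_mul]
    rfl
  have hheat : ∀ t : ℝ, Pool.Agent.W169.HF.heat t Lam = heat t Lam := fun _ => rfl
  have key : ∀ t : ℝ → ℝ, (∀ T, 0 ≤ t T) → Tendsto (fun T => t T * Real.log T ^ 2) atTop (𝓝 0) → ∀ k : ℕ,
      ∀ Ψ : (Fin k → ℝ) → (Fin k → ℝ) → ℝ, ContinuousLaw k Ψ →
        (Law k (num Lam) Ψ ↔ Law k (fun T => num (heat (t T) Lam) T) Ψ) := by
    intro t ht h2 k Ψ hΨ
    have h4 := Run7.h422.PP.law_smallL hx ht h2 k (Φ := Ψ) hΨ
    simp only [hT, one_mul, hheat] at h4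
    exact h4
  refine ⟨fun t ht h2 k => ⟨key t ht h2 k, key t ht h2 k _ (Run7.h422.PP.box_cts Run7.h422.PP.sdet_cts)⟩, ?_, ?_⟩
  · intro k Ψ hΨ hlaw α β ε hαβ hε
    refine Run7.h422.PP.soft_small fun t ht h2 => ?_
    have h3 := (key t ht h2 k Ψ hΨ).1 hlaw α β hαβ
    rw [Metric.tendsto_nhds] at h3
    filter_upwards [h3 ε hε] with T h4
    rw [Real.dist_eq] at h4
    exact h4.le
  intro A hA
  obtain ⟨c, T1, hc, hT1, hge⟩ := Run7.h422.PP.nz_geU hx htot A
  have hge' : ∀ T t : ℝ, T1 ≤ T → 0 ≤ t → t * Real.log T ≤ A →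
      c * (T * Real.log T) ≤ total (heat t Lam) T := fun T t q1 q2 q3 => (hge T t q1 q2 q3).2
  have hlat : ∀ (k : ℕ) (α β : Fin k → ℝ) (ε : ℝ), (∀ i, ∀ a : ℤ, α i ≠ a) → (∀ i, ∀ a : ℤ, β i ≠ a) → 0 < ε →
        ∃ τ₀ T₀ : ℝ, 0 < τ₀ ∧ 2 ≤ T₀ ∧ ∀ T t : ℝ, T₀ ≤ T → τ₀ ≤ t * Real.log T ^ 2 → t * Real.log T ≤ A →
          |num (heat t Lam) T α β - ((IntegerVectors α β).ncard : ℝ) * total (heat t Lam) T| ≤
            ε * total (heat t Lam) T ∧
          |numLine (heat t Lam) T α β - ((IntegerVectors α β).ncard : ℝ) * total (heat t Lam) T| ≤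
            ε * total (heat t Lam) T := by
    intro k α β ε hα hβ hε
    refine Run7.h422.PP.soft_big hA fun t ht hA' => ?_
    have ht0 : ∀ᶠ T in atTop, 0 < t T := by
      filter_upwards [ht.eventually_gt_atTop 0, eventually_gt_atTop (1 : ℝ)] with T h2 h3
      have h5 : 0 < Real.log T ^ 2 := by have := Real.log_pos h3; positivity
      exact (pos_iff_pos_of_mul_pos h2).2 h5
    have hN : ∀ᶠ T in atTop, 0 < total (heat (t T) Lam) T := by
      filter_upwards [hA', ht0, eventually_ge_atTop T1] with T h1 h2 h3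
      refine lt_of_lt_of_le ?_ (hge' T (t T) h3 h2.le h1)
      have hT : 1 < T := by linarith
      have := Real.log_pos hT
      positivity
    have g1 : Tendsto (fun T => num (heat (t T) Lam) T α β / total (heat (t T) Lam) T) atTop
        (𝓝 ((IntegerVectors α β).ncard : ℝ)) := by
      have h4 := Run7.h422.PP.lattice_L hx htot hA' ht hα hβ
      simp only [hT, hheat] at h4
      exact h4
    have g2 : Tendsto (fun T => numLine (heat (t T) Lam) T α β / total (heat (t T) Lam) T) atTop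
        (𝓝 ((IntegerVectors α β).ncard : ℝ)) := by
      have hES := Pool.Agent.R838.IS.largeL hx hA' ht
      have h4 := Run7.h422.PP.good_L hx htot hA' ht
        (fun T => Run7.h422.PP.SL 6 (Pool.Agent.W169.HF.heat (t T) Lam))
        (Run7.h422.PP.few_off hx htot hA' ht hES) hα hβ
      simp only [hT, hheat] at h4
      exact h4
    have q1 := Run7.h422.PP.near_of hε hN g1
    have q2 := Run7.h422.PP.near_of hε hN g2
    filter_upwards [q1, q2] with T r1 r2
    exact ⟨r1, r2⟩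
  have hfail : ∀ k : ℕ, 1 ≤ k → ∀ Ψ : (Fin k → ℝ) → (Fin k → ℝ) → ℝ, ContinuousLaw k Ψ → ∃ τ₀ : ℝ, 0 < τ₀ ∧
        ∀ t : ℝ → ℝ, (∀ᶠ T in atTop, τ₀ ≤ t T * Real.log T ^ 2 ∧ t T * Real.log T ≤ A) →
        ¬ Law k (fun T => num (heat (t T) Lam) T) Ψ := by
    intro k hk Ψ hΨ
    obtain ⟨k, rfl⟩ := Nat.exists_eq_succ_of_ne_zero (by omega : k ≠ 0)
    have hk : 0 < c * Real.pi := by have := Real.pi_pos; positivity
    obtain ⟨α, β₁, β₂, hα, hβ1, hβ2, hl1, hl2, hd, hi1, hi2⟩ :=
      Run7.h422.PP.fail_box hΨ (κ := c * Real.pi / 4) (by positivity)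
    obtain ⟨τ1, S1, hτ1, hS1, hb1⟩ := hlat (k + 1) α β₁ (1 / 4) hα hβ1 (by norm_num)
    obtain ⟨τ2, S2, hτ2, hS2, hb2⟩ := hlat (k + 1) α β₂ (1 / 4) hα hβ2 (by norm_num)
    have hi1' : ((IntegerVectors α β₁).ncard : ℝ) = 0 := hi1
    have hi2' : ((IntegerVectors α β₂).ncard : ℝ) = 1 := hi2
    refine ⟨max τ1 τ2, lt_max_of_lt_left hτ1, fun t ht hall => ?_⟩
    have hp := hall α β₁ hl1
    have hq := hall α β₂ hl2
    have hX : ∀ᶠ T : ℝ in atTop, 0 < T * Real.log T / Real.pi := by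
      filter_upwards [eventually_gt_atTop (1 : ℝ)] with T hT
      have h1 := Real.log_pos hT
      have h2 := Real.pi_pos
      positivity
    refine Run7.h422.PP.fail_abs (n := fun T => total (heat (t T) Lam) T / (T * Real.log T / Real.pi))
      hk ?_ ?_ ?_ hp hq hd
    · filter_upwards [ht, eventually_ge_atTop S1, hX] with T t1 t2 t3
      have h1 := (hb1 T (t T) t2 ((le_max_left _ _).trans t1.1) t1.2).1
      rw [hi1', zero_mul, sub_zero] at h1
      have h2 := (le_abs_self _).trans h1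
      have e : 1 / 4 * (total (heat (t T) Lam) T / (T * Real.log T / Real.pi)) =
          1 / 4 * total (heat (t T) Lam) T / (T * Real.log T / Real.pi) := by ring
      rw [e]
      exact div_le_div_of_nonneg_right h2 t3.le
    · filter_upwards [ht, eventually_ge_atTop S2, hX] with T t1 t2 t3
      have h1 := (hb2 T (t T) t2 ((le_max_right _ _).trans t1.1) t1.2).1
      rw [hi2', one_mul] at h1
      have h2 := (abs_le.1 h1).1
      have e : (1 - 1 / 4) * (total (heat (t T) Lam) T / (T * Real.log T / Real.pi)) =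
          (1 - 1 / 4) * total (heat (t T) Lam) T / (T * Real.log T / Real.pi) := by ring
      rw [e]
      refine div_le_div_of_nonneg_right ?_ t3.le
      linarith
    · filter_upwards [ht, eventually_ge_atTop T1, hX, eventually_gt_atTop (1 : ℝ)] with T t1 t2 t3 t4
      have hL := Real.log_pos t4
      have ht0 : 0 ≤ t T := by
        have h5 : 0 < t T * Real.log T ^ 2 := lt_of_lt_of_le (lt_max_of_lt_left hτ1) t1.1
        exact ((pos_iff_pos_of_mul_pos h5).2 (by positivity)).le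
      have h1 := hge' T (t T) t2 ht0 t1.2
      rw [le_div_iff₀ t3]
      have hpi := Real.pi_pos
      have e : c * Real.pi * (T * Real.log T / Real.pi) = c * (T * Real.log T) := by field_simp
      rw [e]
      exact h1
  exact ⟨⟨c, T1, hc, hT1, hge'⟩, hlat, hfail, fun k hk =>
    hfail k hk _ (Run7.h422.PP.box_cts Run7.h422.PP.sdet_cts)⟩

end Pool.Agent.Results.MP_cd509c_nt.HeatFlowCorrelations
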