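import Pool.Agent.Run7.h278.LI.Del
import Pool.Agent.Results.MP_cd509c_nt.JensenPolynomials

set_option autoImplicit false

/-!
# MP_cd509c_nt: Li's criterion on thin sets of indices for the Ramanujan Xi function and all strips

`Ξ(z) = Λ(6 + i z)` with the completed L-function `Λ` of the modular discriminant. For `d ≥ 0` and any real `b > d` let
`λ_n = λ_n(d, b)` be `n` times the coefficient of `z ^ n` of `log (Λ(6 + d + (b - d) (1 + z) / (1 - z)) / Λ(6 + b))`. For every set `S` of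
Bohr recurrence (for example the numbers `p - 1`, `p` prime, or the `k`-th powers), all zeros of `Ξ` are in the strip `|Im z| ≤ d` if and
only if `λ_n ≥ 0` for all `n ∈ S`; for `d = 0` this is the question Q1. Unconditionally `λ_n > 0` for some `n` in every interval of some
fixed length.
-/

namespace Pool.Agent.Results.MP_cd509c_nt.LiRecurrence

open Pool.Agent.Results.MP_cd509c_nt.JensenPolynomials (delta Lam Xi AllZerosReal)

/-- all zeros of `Ξ` are in the strip `|Im z| ≤ d` -/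
def Strip (d : ℝ) : Prop := ∀ z : ℂ, Xi z = 0 → |z.im| ≤ d

/-- The Li coefficient `λ_n(d, b)` with respect to the half-plane `Re s > 6 + d` and the base point `6 + b`: `n` times the coefficient of
`z ^ n` in the Taylor series of `log (Λ(6 + d + (b - d) (1 + z) / (1 - z)) / Λ(6 + b))` at `z = 0` (a real number) -/
noncomputable def li (d b : ℝ) (n : ℕ) : ℝ :=
  n * (iteratedDeriv n (fun z : ℂ => Complex.log (Lam (6 + d + (b - d) * ((1 + z) / (1 - z))) / Lam (6 + b))) 0).re / n.factorial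

/-- `S` is a set of Bohr recurrence: for all real `θ_1, …, θ_k` and `ε > 0` there is a positive `n` in `S` such that all the `n θ_i` are
at distance `< ε` from the integers -/
def BohrRec (S : Set ℕ) : Prop :=
  ∀ (k : ℕ) (θ : Fin k → ℝ) (ε : ℝ), 0 < ε → ∃ n ∈ S, 0 < n ∧ ∀ i, ∃ m : ℤ, |(n : ℝ) * θ i - m| < ε

/-- **Main theorem.** `Strip 0` is Q1. For all real `0 ≤ d < b`:
(1) the criterion on every set of Bohr recurrence, with signs and with subexponential lower bounds;
(2) examples: shifted primes, multiples of `k`-th powers, the differences of an infinite set, arbitrarily long intervals; the dichotomy;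
(3) if a zero of `Ξ` is outside the strip, the coefficients are `≤ -e^(c n)` for all large `n` in a Bohr neighbourhood of zero;
(4) unconditionally the positive coefficients have bounded gaps; if a zero of `Ξ` is outside the strip, there are large values of both
signs in every long interval. -/
theorem result :
    (Strip 0 ↔ AllZerosReal) ∧
    ∀ d b : ℝ, 0 ≤ d → d < b →
      (∀ S : Set ℕ, BohrRec S →
        (Strip d ↔ ∀ n ∈ S, 0 ≤ li d b n) ∧
        (Strip d ↔ ∀ ε : ℝ, 0 < ε → ∃ C : ℝ, ∀ n ∈ S, -(C * Real.exp (ε * n)) ≤ li d b n)) ∧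
      (Strip d ↔ ∀ p : ℕ, p.Prime → 0 ≤ li d b (p - 1)) ∧
      (Strip d ↔ ∀ p : ℕ, p.Prime → 0 ≤ li d b (p + 1)) ∧
      (∀ m k : ℕ, 0 < m → 0 < k → (Strip d ↔ ∀ x : ℕ, 0 < x → 0 ≤ li d b (m * x ^ k))) ∧
      (∀ A : Set ℕ, A.Infinite → (Strip d ↔ ∀ s ∈ A, ∀ t ∈ A, t < s → 0 ≤ li d b (s - t))) ∧
      (Strip d ↔ ∀ L : ℕ, ∃ a : ℕ, ∀ i < L, 0 ≤ li d b (a + i)) ∧
      (Strip d ↔ BohrRec {n | 0 ≤ li d b n}) ∧
      (¬Strip d → ∃ c : ℝ, 0 < c ∧ ∃ (k : ℕ) (θ : Fin k → ℝ) (δ : ℝ), 0 < δ ∧ ∃ N : ℕ, ∀ n : ℕ, N ≤ n →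
        (∀ i, ∃ m : ℤ, |(n : ℝ) * θ i - m| < δ) → li d b n ≤ -Real.exp (c * n)) ∧
      (∃ L : ℕ, ∀ a : ℕ, ∃ n, a ≤ n ∧ n < a + L ∧ 0 < li d b n) ∧
      (¬Strip d → ∃ c : ℝ, 0 < c ∧ ∃ L N : ℕ, ∀ a : ℕ, N ≤ a →
        (∃ n, a ≤ n ∧ n < a + L ∧ Real.exp (c * n) ≤ li d b n) ∧
        (∃ n, a ≤ n ∧ n < a + L ∧ li d b n ≤ -Real.exp (c * n))) := by
  obtain ⟨B, hB⟩ := Pool.Agent.H128R3.JD.DelHk.isHk
  obtain ⟨hd, hreal, hline, hf⟩ := Run7.h278.LI.even_facts hB rfl
    (fun y hy => Pool.Agent.H128R3.JD.DelK.Dl_pos hy)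
  have hLam : mellin (fun y : ℝ => (((Pool.Agent.H128R3.JD.DelHk.hk B).φ y : ℝ) : ℂ)) = Lam := rfl
  have hk : (Pool.Agent.H128R3.JD.DelHk.hk B).k / 2 = 6 := by
    show (12 : ℝ) / 2 = 6
    norm_num
  rw [hLam, hk] at hline
  rw [hLam] at hd hreal
  simp only [hLam, hk] at hf
  have hI := Complex.I_mul_I
  have hXi : ∀ s : ℂ, Xi (-Complex.I * (s - 6)) = Lam s := by
    intro s
    unfold Xi
    congr 1
    linear_combination (-(s - 6)) * hI
  have him : ∀ s : ℂ, (-Complex.I * (s - 6)).im = -(s.re - 6) := by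
    intro s
    simp [Complex.mul_im]
  have hre : ∀ z : ℂ, (6 + Complex.I * z).re = 6 - z.im := by
    intro z
    simp [Complex.mul_re]
    ring
  -- symmetry
  have hev : ∀ s : ℂ, Lam s = 0 → Lam (12 - s) = 0 := by
    have hL := (Pool.Agent.H128R3.GJA.isHk_isL _ hB).2.2.2
    intro s hs
    have := Run7.h278.LI.even_sym hB rfl s (by rw [hLam]; exact hs)
    rw [hLam, hk] at this
    rw [← this]
    congr 1
    push_cast
    ring
  have hstrip : ∀ d : ℝ, Strip d ↔ Run7.h278.LI.ZF Lam (6 + d) := by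
    intro d
    constructor
    · intro h s hs
      have h1 := h _ ((hXi s).trans hs)
      rw [him, abs_neg] at h1
      have := le_abs_self (s.re - 6)
      linarith
    · intro h z hz
      have h1 := h _ hz
      have h2 := h _ (hev _ hz)
      rw [hre] at h1
      have e : (12 - (6 + Complex.I * z)).re = 6 + z.im := by
        simp [Complex.mul_re]
        ring
      rw [e] at h2
      rw [abs_le]
      constructor <;> linarith
  have h0 : Strip 0 ↔ AllZerosReal := by
    unfold Strip AllZerosReal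
    refine forall_congr' fun z => forall_congr' fun _ => ?_
    rw [abs_nonpos_iff]
  refine ⟨h0, fun d b hd0 hb => ?_⟩
  have hli : Run7.h278.LI.liC Lam (6 + d) (6 + b) = li d b := by
    funext n
    unfold Run7.h278.LI.liC li
    push_cast
    have e : (6 + (b : ℂ) - (6 + (d : ℂ))) = (b : ℂ) - d := by ring
    rw [e]
  have hl : Run7.h278.LI.LiFacts (li d b) (Strip d) (∀ t : ℝ, 6 + b ≤ t → Lam t ≠ 0) := by
    have := hf (6 + d) (6 + b) (by linarith) (by linarith)
    rw [hli, ← hstrip d] at this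
    exact this
  obtain ⟨e1, e2, e3, e4, e5, e6⟩ := hl.examples
  exact ⟨fun S hS => ⟨hl.crit hS, hl.crit_eps hS⟩, e1, e2, e3, e4, e5, e6, hl.nbhd,
    hl.gaps fun t _ => hreal t, hl.window fun t _ => hreal t⟩

end Pool.Agent.Results.MP_cd509c_nt.LiRecurrence
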